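import Mathlib
import Pool.Agent.H973Z.FPP.Prob

set_option autoImplicit false

open MeasureTheory Filter Pool.Agent.H973Z.FPP

/-- A connected, infinite, one-ended graph of degree at most `10`, of polynomial growth and with
a two-dimensional isoperimetric inequality, on which `FPP_lam` survives almost surely for all
parameters. -/
theorem Pool.Agent.Results.MP_12f94a_pr.ANoStrongSurvival.result :
    ∃ (V : Type) (G : SimpleGraph V) (o : V), Infinite V ∧ G.Connected ∧
      (∀ v, (G.neighborSet v).Finite ∧ (G.neighborSet v).ncard ≤ 10) ∧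
      PolyGrowth G o ∧ Isoperimetric G 2 ∧ OneEnded G ∧
      ∀ lam mu : ℝ, 0 < lam → 0 < mu → mu < 1 →
        IsProbabilityMeasure (law V lam mu) ∧ ∀ᵐ ω ∂(law V lam mu),
          (∃ vtx time typ, Evolution G o ω vtx time typ) ∧
          ∀ vtx time typ, Evolution G o ω vtx time typ →
            Tendsto time atTop atTop ∧ Survives G {v | ∃ n, vtx n = v ∧ typ n = true} :=
  ⟨VV, GG, oo, inferInstance, GG_conn, fun v => ⟨nbr_fin v, nbr_card v⟩, polyGrowth,
    isoperimetric, oneEnded, fun _ _ hl h0 h1 => main hl h0 h1⟩
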